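import Pool.Agent.Helper59.AN.Goals

set_option autoImplicit false

noncomputable section

namespace AN.PkEQ

open Pool.Agent.Helper97.Ku NU AN

theorem gen {X : Type} [LinearOrder X] (R : Rnk X) {I : Type} (v : Vx I X) (b : RO (Cd R I))
    (W : Vx I X → Prop) (hadj : ∀ w, W w → Cf R v w)
    (h1 : ∀ p : Cd R I, p ∈ b → ∃ r, r ≤ p ∧ ∃ w, W w ∧ w ∈ r.1)
    (h2 : ∀ w, W w → gv R w ≤ b)
    (hext : ∀ p : Cd R I, v ∉ p.1 → ∃ w, W w ∧ ∃ q : Cd R I, q ≤ p ∧ w ∈ q.1) :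
    gv R v = bᶜ := by
  apply le_antisymm
  · intro p hp
    rw [RO.mem_compl]
    intro q hq hqb
    obtain ⟨r, hr, w, hw, hwr⟩ := h1 q hqb
    obtain ⟨r', hr', hvr'⟩ := hp r (hr.trans hq)
    exact r'.2 v hvr' w (hr' hwr) (hadj w hw)
  · intro p hp q hq
    by_cases hv : v ∈ q.1
    · exact ⟨q, le_rfl, hv⟩
    · obtain ⟨w, hw, q', hq', hwq'⟩ := hext q hv
      exfalso
      refine RO.mem_compl.1 hp q' (hq'.trans hq) (h2 w hw q' ?_)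
      intro r hr
      exact ⟨r, le_rfl, hr hwq'⟩

theorem eq : G_X12 → G_EQ := by
  intro hX X _ R I i x s
  refine ⟨fun hrk => ?_, fun hrk => ?_⟩
  · refine gen R (Vx.g i x s) _ (fun w => ∃ n, w = Vx.g i x (n :: s)) ?_ ?_ ?_ ?_
    · rintro w ⟨n, rfl⟩
      exact ⟨rfl, rfl, Or.inl ⟨⟨n, rfl⟩, hrk⟩⟩
    · intro p hp
      obtain ⟨r, hr, n, hn⟩ := RO.mem_iSup.1 hp p le_rfl
      obtain ⟨r', hr', hw⟩ := hn r le_rfl
      exact ⟨r', hr'.trans hr, _, ⟨n, rfl⟩, hw⟩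
    · rintro w ⟨n, rfl⟩
      exact le_iSup (fun n => gv R (Vx.g i x (n :: s))) n
    · intro p hp
      obtain ⟨n, q, hq, hn, -⟩ := (hX X R I p i x s hp).1 hrk
      exact ⟨_, ⟨n, rfl⟩, q, hq, hn⟩
  · refine gen R (Vx.g i x s) _ (fun w => ∃ σ, CylS σ (R.r x) ∧ w = Vx.a i s σ) ?_ ?_ ?_ ?_
    · rintro w ⟨σ, hσ, rfl⟩
      exact ⟨rfl, rfl, hrk, hσ⟩
    · intro p hp
      obtain ⟨r, hr, σ, hσ⟩ := RO.mem_iSup.1 hp p le_rfl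
      obtain ⟨r', hr', hc, hσ'⟩ := RO.mem_iSup.1 hσ r le_rfl
      obtain ⟨r'', hr'', hw⟩ := hσ' r' le_rfl
      exact ⟨r'', hr''.trans (hr'.trans hr), _, ⟨σ, hc, rfl⟩, hw⟩
    · rintro w ⟨σ, hσ, rfl⟩
      exact le_iSup₂ (f := fun (σ : Finset ℕ) (_ : CylS σ (R.r x)) => gv R (Vx.a i s σ)) σ hσ
    · intro p hp
      obtain ⟨σ, hσ, q, hq, hn, -⟩ := (hX X R I p i x s hp).2 hrk
      exact ⟨_, ⟨σ, hσ, rfl⟩, q, hq, hn⟩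

end AN.PkEQ
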